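import Pool.Agent.Q289.Bkr.Final

/-!
# The bracketed products of a suitable word of sets are pairwise distinct

The definitions are in `Q289.Bkr.Defs`: `cyl x K` is the cylinder `[x]_K`, `bkr A B` the BKR product
of `A` and `B`, a bracketing of a word is a full binary tree `T : Br`, and `T.val A 0` is the
product of `A 0, ..., A (T.size - 1)`, in this order, bracketed as `T`.
-/

set_option autoImplicit false

namespace Pool.Agent.Results.MP_890654_pr.AllDistinct

open Q289.Bkr

/-- for every `r ≥ 1` there are a dimension `d ≥ 1` and sets `A 0, ..., A (r - 1)` in `{0, 1} ^ d`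
such that different bracketings of the word `A 0 ... A (r - 1)` have different values -/
theorem result (r : ℕ) (hr : 1 ≤ r) : ∃ (d : ℕ) (A : ℕ → Set (Fin d → Bool)), 1 ≤ d ∧
    ∀ T T' : Br, T.size = r → T'.size = r → T ≠ T' → T.val A 0 ≠ T'.val A 0 := by
  obtain ⟨d, A, hd, h⟩ := main_val r hr
  exact ⟨d, A, hd, fun T T' hT hT' hne h2 => hne (h T T' hT hT' h2)⟩

end Pool.Agent.Results.MP_890654_pr.AllDistinct
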